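import Pool.Agent.helper78.FS.Spec

/-!
# fs:AXS (MP_55808c_co): no crossing far from the axis (helper76)
-/

namespace Pool.Agent.helper78.FS

open Finset Real
open Classical

noncomputable section

theorem AXS_sq (a b : E3) : dist a b ^ 2 = (a 0 - b 0) ^ 2 + (a 1 - b 1) ^ 2 + (a 2 - b 2) ^ 2 := by
  rw [EuclideanSpace.dist_eq, Real.sq_sqrt (by positivity), Fin.sum_univ_three]
  simp only [Real.dist_eq, sq_abs]

theorem AXS_y (a b : E3) : |yc a - yc b| ≤ dist a b := by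
  apply abs_le_of_sq_le_sq _ dist_nonneg
  rw [AXS_sq]
  unfold yc
  nlinarith [sq_nonneg (a 0 - b 0), sq_nonneg (a 2 - b 2)]

theorem AXS_x (t : ℝ) (a b : E3) : |xc t a - xc t b| ≤ dist a b := by
  apply abs_le_of_sq_le_sq _ dist_nonneg
  rw [AXS_sq]
  unfold xc
  have h := Real.sin_sq_add_cos_sq t
  have e : (Real.cos t * a 0 - Real.sin t * a 2 - (Real.cos t * b 0 - Real.sin t * b 2)) ^ 2 +
      (Real.sin t * (a 0 - b 0) + Real.cos t * (a 2 - b 2)) ^ 2 =
      (Real.sin t ^ 2 + Real.cos t ^ 2) * ((a 0 - b 0) ^ 2 + (a 2 - b 2) ^ 2) := by ring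
  rw [h, one_mul] at e
  nlinarith [sq_nonneg (a 1 - b 1), sq_nonneg (Real.sin t * (a 0 - b 0) + Real.cos t * (a 2 - b 2))]

/-- no crossing if the two `y` have the same sign. -/
theorem AXS_same {t : ℝ} {a b : E3} (h : (yc a < 0 ∧ yc b < 0) ∨ (0 ≤ yc a ∧ 0 ≤ yc b)) : kap t a b = 0 := by
  unfold kap
  rw [if_neg]
  rintro (⟨h1, h2, -⟩ | ⟨h1, h2, -⟩) <;> rcases h with ⟨h3, h4⟩ | ⟨h3, h4⟩ <;> linarith

/-- no crossing on the negative side. -/
theorem AXS_neg {t : ℝ} {a b : E3} (ha : xc t a < 0) (hb : xc t b < 0) : kap t a b = 0 := by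
  unfold kap
  rw [if_neg]
  rintro (⟨h1, h2, h3⟩ | ⟨h1, h2, h3⟩)
  · nlinarith [mul_nonneg h2 (neg_nonneg.2 ha.le), mul_pos (neg_pos.2 h1) (neg_pos.2 hb)]
  · nlinarith [mul_nonneg h2 (neg_nonneg.2 hb.le), mul_pos (neg_pos.2 h1) (neg_pos.2 ha)]

/-- the crossing number on the positive side. -/
theorem AXS_pos {t : ℝ} {a b : E3} (ha : 0 < xc t a) (hb : 0 < xc t b) :
    kap t a b = if (yc a < 0 ∧ 0 ≤ yc b) ∨ (yc b < 0 ∧ 0 ≤ yc a) then 1 else 0 := by
  unfold kap crs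
  congr 1
  apply propext
  constructor
  · rintro (⟨h1, h2, -⟩ | ⟨h1, h2, -⟩)
    · exact Or.inl ⟨h1, h2⟩
    · exact Or.inr ⟨h1, h2⟩
  · rintro (⟨h1, h2⟩ | ⟨h1, h2⟩)
    · refine Or.inl ⟨h1, h2, ?_⟩
      nlinarith [mul_nonneg h2 ha.le, mul_pos (neg_pos.2 h1) hb]
    · refine Or.inr ⟨h1, h2, ?_⟩
      nlinarith [mul_nonneg h2 hb.le, mul_pos (neg_pos.2 h1) ha]

theorem AXS : AXS_stmt := by
  intro t L a b c hab hac h
  unfold dkap
  have hyb := abs_le.1 (AXS_y a b)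
  have hyc := abs_le.1 (AXS_y a c)
  have hxb := abs_le.1 (AXS_x t a b)
  have hxc := abs_le.1 (AXS_x t a c)
  rcases h with h | h
  · rcases lt_abs.1 h with h | h
    · have h0 : (0 : ℝ) ≤ L := dist_nonneg.trans hab
      rw [AXS_same (Or.inr ⟨by linarith, by linarith⟩), AXS_same (Or.inr ⟨by linarith, by linarith⟩),
        AXS_same (Or.inr ⟨by linarith, by linarith⟩)]
      simp
    · have h0 : (0 : ℝ) ≤ L := dist_nonneg.trans hab
      rw [AXS_same (Or.inl ⟨by linarith, by linarith⟩), AXS_same (Or.inl ⟨by linarith, by linarith⟩),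
        AXS_same (Or.inl ⟨by linarith, by linarith⟩)]
      simp
  · have h0 : (0 : ℝ) ≤ L := dist_nonneg.trans hab
    rcases lt_abs.1 h with h | h
    · have ha : 0 < xc t a := by linarith
      have hb : 0 < xc t b := by linarith
      have hc : 0 < xc t c := by linarith
      rw [AXS_pos ha hb, AXS_pos hb hc, AXS_pos ha hc]
      have h2 : (1 : ZMod 2) + 1 = 0 := by decide
      rcases lt_or_ge (yc a) 0 with h3 | h3 <;> rcases lt_or_ge (yc b) 0 with h4 | h4 <;>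
        rcases lt_or_ge (yc c) 0 with h5 | h5 <;>
        simp [h3, h4, h5, not_lt.2, not_le.2, h2]
    · rw [AXS_neg (by linarith) (by linarith), AXS_neg (by linarith) (by linarith), AXS_neg (by linarith) (by linarith)]
      simp

end

end Pool.Agent.helper78.FS
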